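import Mathlib
import Pool.Agent.H.MP_b0d7fb_nt.B

namespace Pool.Agent.Results.MP_b0d7fb_nt.Disproof

open Pool.Agent.H.MP_b0d7fb_nt

/-- The mixed lonely runner parameter space. -/
def MLPS (k : ℕ) : Set (Fin k → ℝ) :=
  {d | (∀ i, 0 < d i ∧ d i ≤ 1 / 2) ∧ ∀ s : Fin k → ℕ, (∀ i, 0 < s i) → Function.Injective s →
    ∃ t : ℝ, ∀ i, d i ≤ |s i * t - round (s i * t)|}

/-- Its upper boundary. -/
def UB (k : ℕ) : Set (Fin k → ℝ) := {d | d ∈ MLPS k ∧ ∀ e ∈ MLPS k, (∀ i, d i ≤ e i) → e = d}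

/-- The diagonal point. -/
noncomputable def D (k : ℕ) : Fin k → ℝ := fun _ => 1 / (k + 1)

theorem mem3 (x y : ℝ) (hx : 0 < x ∧ x ≤ 1 / 2) (hy : 0 < y ∧ y ≤ 1 / 2)
    (h : ∀ a b c : ℕ, 0 < a → 0 < b → 0 < c → a ≠ b → a ≠ c →
      ∃ t, G x (a * t) ∧ G y (b * t) ∧ G y (c * t)) : ![x, y, y] ∈ MLPS 3 := by
  refine ⟨fun i => by fin_cases i <;> assumption, fun s h1 h2 => ?_⟩
  obtain ⟨t, t1, t2, t3⟩ := h (s 0) (s 1) (s 2) (h1 _) (h1 _) (h1 _) (h2.ne (by decide))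
    (h2.ne (by decide))
  exact ⟨t, fun i => by fin_cases i; exacts [t1.le, t2.le, t3.le]⟩

theorem perm {k : ℕ} (σ : Equiv.Perm (Fin k)) {d : Fin k → ℝ} (h : d ∈ MLPS k) :
    d ∘ σ ∈ MLPS k := by
  refine ⟨fun i => h.1 _, fun s h1 h2 => ?_⟩
  obtain ⟨t, ht⟩ := h.2 (s ∘ σ.symm) (fun i => h1 _) (h2.comp σ.symm.injective)
  exact ⟨t, fun i => by simpa using ht (σ i)⟩

theorem permU {k : ℕ} (σ : Equiv.Perm (Fin k)) {d : Fin k → ℝ} (h : d ∈ UB k) :
    d ∘ σ ∈ UB k := by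
  refine ⟨perm σ h.1, fun e he hl => ?_⟩
  rw [← h.2 _ (perm σ.symm he) fun i => by simpa using hl (σ.symm i)]
  ext i; simp

theorem closed {k : ℕ} (s : Fin k → ℕ) :
    IsClosed {d : Fin k → ℝ | ∃ t : ℝ, ∀ i, d i ≤ |s i * t - round (s i * t)|} := by
  have c : Continuous fun x : ℝ => |x - round x| := by
    simp only [← UnitAddCircle.norm_eq]; exact (AddCircle.continuous_mk' 1).norm
  have h : IsClosed {p : (Fin k → ℝ) × Set.Icc (0 : ℝ) 1 |
      ∀ i, p.1 i ≤ |s i * (p.2 : ℝ) - round (s i * (p.2 : ℝ))|} := by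
    rw [Set.ofPred_forall]
    exact isClosed_iInter fun i => isClosed_le (by fun_prop) (c.comp (by fun_prop))
  convert isClosedMap_fst_of_compactSpace _ h using 1
  ext d
  constructor
  · rintro ⟨t, ht⟩
    refine ⟨(d, ⟨Int.fract t, Int.fract_nonneg t, (Int.fract_lt_one t).le⟩), fun i => ?_, rfl⟩
    have : (s i : ℝ) * Int.fract t = s i * t - ((s i * ⌊t⌋ : ℤ) : ℝ) := by
      rw [Int.fract]; push_cast; ring
    simp only [this, round_sub_intCast]
    convert ht i using 2; push_cast; ring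
  · rintro ⟨p, hp, rfl⟩
    exact ⟨_, hp⟩

theorem top {k : ℕ} {e : Fin k → ℝ} (he : e ∈ MLPS k) : ∃ d ∈ UB k, e ≤ d := by
  have hK : IsCompact (Set.Icc e (fun _ => 1 / 2) ∩ ⋂ (s : Fin k → ℕ) (_ : ∀ i, 0 < s i)
      (_ : Function.Injective s), {d | ∃ t : ℝ, ∀ i, d i ≤ |s i * t - round (s i * t)|}) :=
    isCompact_Icc.inter_right (isClosed_iInter fun s => isClosed_iInter fun _ =>
      isClosed_iInter fun _ => closed s)
  have mem := fun d (hd : d ∈ MLPS k) (h : e ≤ d) =>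
    (⟨⟨h, fun i => (hd.1 i).2⟩, by simp only [Set.mem_iInter]; exact hd.2⟩ :
      d ∈ Set.Icc e (fun _ => 1 / 2) ∩ ⋂ (s : Fin k → ℕ) (_ : ∀ i, 0 < s i)
      (_ : Function.Injective s), {d | ∃ t : ℝ, ∀ i, d i ≤ |s i * t - round (s i * t)|})
  obtain ⟨d, ⟨⟨h1, h2⟩, h3⟩, h4⟩ := hK.exists_isMaxOn ⟨e, mem e he le_rfl⟩
    (f := fun d => ∑ i, d i) (by fun_prop)
  refine ⟨d, ⟨⟨fun i => ⟨(he.1 i).1.trans_le (h1 i), h2 i⟩,
    by simp only [Set.mem_iInter] at h3; exact h3⟩, fun f hf hl => ?_⟩, h1⟩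
  have := (Finset.sum_eq_sum_iff_of_le fun i _ => hl i).1
    (le_antisymm (Finset.sum_le_sum fun i _ => hl i) (h4 (mem f hf (h1.trans hl))))
  ext i; exact (this i (Finset.mem_univ i)).symm

theorem avg {d : Fin 3 → ℝ} (h : d ∈ UB 3) (h0 : 1 / 4 < d 0) :
    (fun _ => (d 0 + d 1 + d 2) / 3) ∈ convexHull ℝ (UB 3 \ {D 3}) := by
  have m : ∀ σ : Equiv.Perm (Fin 3), d ∘ σ ∈ convexHull ℝ (UB 3 \ {D 3}) := fun σ =>
    subset_convexHull _ _ ⟨permU σ h, fun e => by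
      have := congrFun (Set.mem_singleton_iff.1 e) (σ.symm 0)
      simp [D] at this; linarith⟩
  have c := convex_convexHull ℝ (UB 3 \ {D 3})
  convert c (m 1) (c (m (finRotate 3)) (m (finRotate 3).symm) (a := 1 / 2) (b := 1 / 2)
    (by norm_num) (by norm_num) (by norm_num)) (a := 1 / 3) (b := 2 / 3) (by norm_num)
    (by norm_num) (by norm_num) using 1
  have e0 : (finRotate 3).symm 0 = 2 := by decide
  have e1 : (finRotate 3).symm 1 = 0 := by decide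
  have e2 : (finRotate 3).symm 2 = 1 := by decide
  have e3 : finRotate 3 2 = 0 := by decide
  ext i; fin_cases i <;> simp [e0, e1, e2, e3] <;> ring

theorem two_le {d : Fin 3 → ℝ} (h : d ∈ MLPS 3) : 2 * d 0 + d 1 ≤ 1 := by
  obtain ⟨t, ht⟩ := h.2 ![1, 2, 3] (by decide) (by decide)
  have a := ht 0; have b := ht 1
  simp only [Matrix.cons_val_zero, Nat.cast_one, one_mul, Matrix.cons_val_one,
    Nat.cast_ofNat] at a b
  have c := abs_le.1 (abs_sub_round t)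
  rcases le_abs.1 a with a | a
  · have := b.trans (round_le (2 * t) (2 * round t + 1))
    rw [abs_of_nonpos (by push_cast; linarith)] at this; push_cast at this; linarith
  · have := b.trans (round_le (2 * t) (2 * round t - 1))
    rw [abs_of_nonneg (by push_cast; linarith)] at this; push_cast at this; linarith

theorem result : D 3 ∈ MLPS 3 ∧ D 3 ∈ convexHull ℝ (UB 3 \ {D 3}) ∧
    ¬ ∀ k, 1 ≤ k → D k ∈ MLPS k → D k ∉ convexHull ℝ (UB k \ {D k}) := by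
  have A : D 3 ∈ MLPS 3 := by
    convert mem3 _ _ (by norm_num) (by norm_num) T2 using 1
    ext i; fin_cases i <;> simp [D] <;> norm_num
  have B : D 3 ∈ convexHull ℝ (UB 3 \ {D 3}) := by
    obtain ⟨d, hd, l1⟩ := top (mem3 _ _ (by norm_num) (by norm_num) T5)
    obtain ⟨e, he, l2⟩ := top (mem3 _ _ (by norm_num) (by norm_num) T7)
    have a0 : 7 / 20 ≤ d 0 := l1 0
    have a1 : 1 / 5 ≤ d 1 := l1 1
    have a2 : 1 / 5 ≤ d 2 := l1 2
    have b0 : 5 / 12 ≤ e 0 := l2 0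
    have b1 := two_le he.1
    have b2 : 2 * e 0 + e 2 ≤ 1 := two_le (perm (Equiv.swap 1 2) he.1)
    have s := (convex_convexHull ℝ (UB 3 \ {D 3})).segment_subset (avg he (by linarith))
      (avg hd (by linarith))
    apply s
    have : (1 / 4 : ℝ) ∈ segment ℝ ((e 0 + e 1 + e 2) / 3) ((d 0 + d 1 + d 2) / 3) := by
      rw [segment_eq_Icc (by linarith)]; constructor <;> linarith
    obtain ⟨u, v, h1, h2, h3, h4⟩ := this
    refine ⟨u, v, h1, h2, h3, funext fun i => ?_⟩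
    simp only [D, Pi.add_apply, Pi.smul_apply]; rw [h4]; norm_num
  exact ⟨A, B, fun h => h 3 (by norm_num) A B⟩

end Pool.Agent.Results.MP_b0d7fb_nt.Disproof
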